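import Pool.Agent.FS.AllLarge.Main

/-!
Both signs of `Kl₂(1;c)` occur for many moduli `c = g r s p q` all of whose prime factors are
large, for every squarefree cofactor `g` without small prime factors, uniformly in `g`.
-/

namespace Pool.Agent.Results.MP_4b8564_nt.AllLarge

open Classical in
theorem result : ∀ Kl : ℕ → ℝ,
    (∀ c : ℕ, Kl c = (Real.sqrt (c : ℝ))⁻¹ *
      ∑ x ∈ (Finset.range c).filter (fun x => Nat.Coprime x c),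
        Real.cos (2 * Real.pi * (((x + ((x : ZMod c)⁻¹).val : ℕ) : ℝ)) / (c : ℝ))) →
    ∀ E : ℕ, ∃ D Z₀ : ℕ, ∀ Z g X : ℕ, Z₀ ≤ Z → Squarefree g →
      (∀ l : ℕ, l.Prime → l ∣ g → Z < l) → g * Z ≤ X → X ≤ Z ^ E →
      X ^ 2 ≤ (g * Z) ^ 2 * ((Finset.Icc 1 (g * Z ^ 2 * X ^ 2)).filter fun c => Squarefree c ∧
        (∃ r s p q : ℕ, r.Prime ∧ s.Prime ∧ p.Prime ∧ q.Prime ∧ Z ≤ r ^ D ∧ r < s ∧ s ≤ Z ∧
          (X : ℝ) < p * Real.log X ^ 2 ∧ p < q ∧ q ≤ X ∧ c = g * r * s * p * q) ∧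
        0 < Kl c).card ∧
      X ^ 2 ≤ (g * Z) ^ 2 * ((Finset.Icc 1 (g * Z ^ 2 * X ^ 2)).filter fun c => Squarefree c ∧
        (∃ r s p q : ℕ, r.Prime ∧ s.Prime ∧ p.Prime ∧ q.Prime ∧ Z ≤ r ^ D ∧ r < s ∧ s ≤ Z ∧
          (X : ℝ) < p * Real.log X ^ 2 ∧ p < q ∧ q ≤ X ∧ c = g * r * s * p * q) ∧
        Kl c < 0).card := by
  intro Kl hKl E
  obtain ⟨D, Z₀, h⟩ := Pool.Agent.FS.AllLarge.main E
  refine ⟨D, Z₀, fun Z g X h1 h2 h3 h4 h5 =>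
    ⟨(h Z g X h1 h2 h3 h4 h5 1 one_ne_zero).trans ?_,
      (h Z g X h1 h2 h3 h4 h5 (-1) (by norm_num)).trans ?_⟩⟩
  all_goals
    refine Nat.mul_le_mul_left _ (Finset.card_le_card fun c hc => ?_)
    obtain ⟨a1, a2, a3, a5⟩ := Finset.mem_filter.1 hc
    have hs : 0 < (Real.sqrt (c : ℝ))⁻¹ :=
      inv_pos.2 (Real.sqrt_pos.2 (by exact_mod_cast (Finset.mem_Icc.1 a1).1))
    refine Finset.mem_filter.2 ⟨a1, a2, a3, ?_⟩
    rw [hKl]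
  · exact mul_pos hs (by rwa [one_mul] at a5)
  · exact mul_neg_of_pos_of_neg hs (by rwa [neg_one_mul, neg_pos] at a5)

end Pool.Agent.Results.MP_4b8564_nt.AllLarge
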