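import Pool.Agent.Lib.MP_4b8564_nt.BhAll

/-!
Kloosterman angles to moduli with exactly `K` prime factors in `k[X]`, `k` finite of
characteristic two: every arc contains the angle of many moduli.
-/

open Polynomial Filter

/-- For every nontrivial additive character `ψ` of `k`, every `K ≥ 1` and every arc `(α, β)` of
`[0, π]`, at least `δ * q ^ (N / 2) / N` products `c` of `K` distinct monic irreducible polynomials
with `deg c ≤ N` have their Kloosterman angle in the arc. -/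
theorem Pool.Agent.Results.MP_4b8564_nt.AnglesDense.result
    (k : Type) [Field k] [Fintype k] [CharP k 2] (ψ : AddChar k ℝ) (hψ : ψ ≠ 1)
    (K : ℕ) (hK : 1 ≤ K) (α β : ℝ) (hα : 0 ≤ α) (hαβ : α < β) (hβ : β ≤ Real.pi) :
    ∃ δ : ℝ, 0 < δ ∧ ∀ᶠ N : ℕ in atTop, δ * √(Fintype.card k) ^ N / N ≤
      (Set.ncard {c : k[X] | (∃ S : Finset k[X], S.card = K ∧
        (∀ p ∈ S, p.Monic ∧ Irreducible p) ∧ c = ∏ p ∈ S, p) ∧ c.natDegree ≤ N ∧
        Real.arccos ((∑ᶠ z ∈ {z : k[X] × k[X] |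
            z.1.degree < c.degree ∧ z.2.degree < c.degree ∧ c ∣ z.1 * z.2 - 1},
          ψ ((z.1 + z.2).coeff (c.natDegree - 1))) / √((Fintype.card k : ℝ) ^ c.natDegree) /
          2 ^ K) ∈ Set.Ioo α β} : ℝ) :=
  (Pool.Agent.Lib.MP_4b8564_nt.bhFin k).2 ψ hψ K hK α β hα hαβ hβ
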