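import Pool.Agent.Lib.MP_4b8564_nt.GT.Dich

/-!
Of two families of squarefree moduli `c = m p q` and `c = m' p q`, with `p` and `q` primes of the
same colour in an arbitrary finite colouring, at least one shows both signs of `Kl₂(1;c)`.
-/

namespace Pool.Agent.Results.MP_4b8564_nt.FamilySigns

open Pool.Agent.Lib.MP_4b8564_nt

open Classical in
theorem result : ∀ Kl : ℕ → ℝ,
    (∀ c : ℕ, Kl c = (Real.sqrt (c : ℝ))⁻¹ *
      ∑ x ∈ (Finset.range c).filter (fun x => Nat.Coprime x c),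
        Real.cos (2 * Real.pi * (((x + ((x : ZMod c)⁻¹).val : ℕ) : ℝ)) / (c : ℝ))) →
    ∀ m m' t : ℕ, Squarefree m → Squarefree m' → t.Prime → t % 4 = 3 → 3 < t → t ∣ m → ¬ t ∣ m' →
    (Odd m ∨ Even m') → ∀ r y : ℕ, ∃ A : ℕ, ∃ δ : ℝ, 0 < δ ∧ ∃ X₀ : ℕ,
      ∀ col : ℕ → Fin r, ∀ X : ℕ, X₀ ≤ X → ∃ w : ℕ, (w = m ∨ w = m') ∧
      δ * X / Real.log X ^ A ≤ (((Finset.Icc 1 X).filter fun c => Squarefree c ∧
        (∃ p q : ℕ, p.Prime ∧ q.Prime ∧ y < p ∧ p < q ∧ col p = col q ∧ c = w * p * q) ∧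
          0 < Kl c).card : ℝ) ∧
      δ * X / Real.log X ^ A ≤ (((Finset.Icc 1 X).filter fun c => Squarefree c ∧
        (∃ p q : ℕ, p.Prime ∧ q.Prime ∧ y < p ∧ p < q ∧ col p = col q ∧ c = w * p * q) ∧
          Kl c < 0).card : ℝ) := by
  intro Kl hKl m m' t hm hm' pt t4 t3 htm htm' par r y
  obtain ⟨A, δ, hδ, X₀, h⟩ := GT.dichotomy hm hm' pt t4 t3 htm htm' par r y
  refine ⟨A, δ, hδ, X₀, fun col X hX => ?_⟩
  obtain ⟨w, hw, h1, h2⟩ := h col X hX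
  refine ⟨w, hw, h1.trans ?_, h2.trans ?_⟩
  all_goals
    refine Nat.cast_le.2 (Finset.card_le_card fun c hc => ?_)
    obtain ⟨h1, h2, h3, h5⟩ := Finset.mem_filter.1 hc
    have hs : 0 < (Real.sqrt (c : ℝ))⁻¹ :=
      inv_pos.2 (Real.sqrt_pos.2 (by exact_mod_cast (Finset.mem_Icc.1 h1).1))
    refine Finset.mem_filter.2 ⟨h1, h2, h3, ?_⟩
    rw [hKl]
  · exact mul_pos hs (by rwa [one_mul] at h5)
  · exact mul_neg_of_pos_of_neg hs (by rwa [neg_one_mul, neg_pos] at h5)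

end Pool.Agent.Results.MP_4b8564_nt.FamilySigns
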