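import Pool.Agent.Lib.MP_4b8564_nt.BhAll

/-!
Prime values of `a ^ 2 + u X` in `k[X]`, `k` finite of characteristic two.
-/

open Polynomial Filter

/-- The number of monic `a` of degree `m` with `a ^ 2 + u X` irreducible is asymptotic to
`q ^ m / (2 * m)`. -/
theorem Pool.Agent.Results.MP_4b8564_nt.PrimeValues.result
    (k : Type) [Field k] [Fintype k] [CharP k 2] (u : k) (hu : u ≠ 0) :
    Tendsto (fun m : ℕ => 2 * m *
      (Set.ncard {a : k[X] | a.Monic ∧ a.natDegree = m ∧ Irreducible (a ^ 2 + C u * X)} : ℝ) /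
        (Fintype.card k : ℝ) ^ m) atTop (nhds 1) :=
  (Pool.Agent.Lib.MP_4b8564_nt.bhFin k).1 u hu
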